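import Pool.Agent.Helper87.PG.Stmts

/-!
The fixed vectors of a linear automorphism of finite order and determinant `1`: the fixed space of
an automorphism other than the identity has codimension at least `2` (`ST_FIXD`).
-/

set_option autoImplicit false

namespace Pool.Agent.Helper99.PG

open Pool.Agent.Helper87.PG

/-- The powers of a transvection. -/
theorem pow_transvection {V : Type} [AddCommGroup V] [Module ℂ V] (f : Module.Dual ℂ V) (v : V)
    (hfv : f v = 0) (k : ℕ) (x : V) :
    (LinearMap.transvection f v ^ k) x = x + ((k : ℂ) * f x) • v := by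
  induction k with
  | zero => simp
  | succ k ih =>
    rw [pow_succ', Module.End.mul_apply, ih, LinearMap.transvection.apply]
    simp only [map_add, map_smul, hfv, smul_eq_mul, mul_zero, add_zero]
    rw [add_assoc, ← add_smul]
    congr 2
    push_cast
    ring

/-- The fixed vectors of an automorphism of finite order and determinant `1`. -/
theorem st_FIXD : ST_FIXD := by
  intro n g r hr hgr hdet hne
  by_contra hlt
  have hrk := LinearMap.finrank_range_add_finrank_ker (g - LinearMap.id)
  rw [Module.finrank_fin_fun] at hrk
  have h1 : Module.finrank ℂ (LinearMap.range (g - LinearMap.id)) ≤ 1 := by omega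
  have hu : IsUnit (LinearMap.det g) := by
    rw [hdet]
    exact isUnit_one
  set e := LinearEquiv.ofIsUnitDet (f := g) (v := Pi.basisFun ℂ (Fin n))
    (v' := Pi.basisFun ℂ (Fin n)) (by rw [LinearMap.det_toMatrix]; exact hu) with he
  have heg : (e : (Fin n → ℂ) →ₗ[ℂ] (Fin n → ℂ)) = g := by
    ext x
    rfl
  have hmem : e ∈ LinearEquiv.dilatransvections ℂ (Fin n → ℂ) := by
    rw [LinearEquiv.mem_dilatransvections_iff_finrank, heg]
    exact h1
  obtain ⟨f, v, hfv⟩ := hmem
  rw [heg] at hfv
  have hf0 : f v = 0 := by
    have h2 := LinearMap.transvection.det f v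
    rw [← hfv, hdet] at h2
    linear_combination -h2
  have hx : ∀ x, f x • v = 0 := by
    intro x
    have h3 := pow_transvection f v hf0 r x
    rw [← hfv, hgr, Module.End.one_apply] at h3
    have h4 : ((r : ℂ) * f x) • v = 0 := by
      have h5 : x + ((r : ℂ) * f x) • v = x + 0 := by rw [← h3, add_zero]
      exact add_left_cancel h5
    rw [mul_smul] at h4
    rcases smul_eq_zero.mp h4 with h6 | h6
    · exact absurd (Nat.cast_eq_zero.mp h6) hr.ne'
    · exact h6
  apply hne
  rw [hfv]
  refine LinearMap.ext fun x => ?_
  rw [LinearMap.transvection.apply, hx x, add_zero]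
  rfl

end Pool.Agent.Helper99.PG
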