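import Pool.Agent.Helper87.PG.Stmts

/-!
A Sylow `2`-subgroup of a finite group acting transitively on `2 ^ k` points acts transitively
(`ST_SYL1`).
-/

set_option autoImplicit false

namespace Pool.Agent.Helper99.PG

open Pool.Agent.Helper87.PG

/-- A Sylow subgroup of a transitive group of degree `2 ^ k` is transitive. -/
theorem st_SYL1 : ST_SYL1 := by
  intro S ι _ _ _ k π hι htr
  classical
  haveI : Fact (Nat.Prime 2) := ⟨Nat.prime_two⟩
  obtain ⟨P⟩ : Nonempty (Sylow 2 S) := inferInstance
  have hP : IsPGroup 2 P.toSubgroup := P.isPGroup'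
  obtain ⟨m, hm⟩ := IsPGroup.iff_card.mp hP
  refine ⟨P.toSubgroup, m, hm, ?_⟩
  letI act : MulAction S ι := MulAction.compHom ι π
  have hact : ∀ (s : S) (i : ι), s • i = π s i := fun s i => rfl
  have hpos : 0 < Nat.card ι := by
    rw [hι]
    positivity
  intro i j
  -- the orbit of `i` under `S`
  have hS : Nat.card (MulAction.orbit S i) = 2 ^ k := by
    have h1 : MulAction.orbit S i = Set.univ := by
      apply Set.eq_univ_of_forall
      intro x
      obtain ⟨s, hs⟩ := htr i x
      exact ⟨s, hs⟩
    rw [h1, Nat.card_coe_set_eq, Set.ncard_univ, hι]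
  have hSst : Nat.card S = 2 ^ k * Nat.card (MulAction.stabilizer S i) := by
    rw [← hS, Nat.card_congr (MulAction.orbitProdStabilizerEquivGroup S i).symm, Nat.card_prod]
  -- the orbit of `i` under `P`
  have hPst : Nat.card P.toSubgroup =
      Nat.card (MulAction.orbit P.toSubgroup i) *
        Nat.card (MulAction.stabilizer P.toSubgroup i) := by
    rw [Nat.card_congr (MulAction.orbitProdStabilizerEquivGroup P.toSubgroup i).symm,
      Nat.card_prod]
  -- `Stab_P` is a subgroup of `Stab_S` of order a power of `2`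
  have hdvd : Nat.card (MulAction.stabilizer P.toSubgroup i) ∣
      Nat.card (MulAction.stabilizer S i) := by
    let φ : MulAction.stabilizer P.toSubgroup i →* MulAction.stabilizer S i :=
      { toFun := fun x => ⟨x.1.1, x.2⟩
        map_one' := rfl
        map_mul' := fun _ _ => rfl }
    have hφ : Function.Injective φ := by
      intro x y hxy
      have h1 := congrArg Subtype.val hxy
      exact Subtype.ext (Subtype.ext h1)
    exact Subgroup.card_dvd_of_injective φ hφ
  have hcop : Nat.Coprime (2 ^ k) P.toSubgroup.index := by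
    apply Nat.Coprime.pow_left
    rw [Nat.Prime.coprime_iff_not_dvd Nat.prime_two]
    exact P.not_dvd_index
  have hidx := Subgroup.card_mul_index P.toSubgroup
  obtain ⟨t, ht⟩ := hdvd
  have hbpos : 0 < Nat.card (MulAction.stabilizer P.toSubgroup i) := Nat.card_pos
  have h2 : 2 ^ k * t = Nat.card (MulAction.orbit P.toSubgroup i) * P.toSubgroup.index := by
    apply Nat.eq_of_mul_eq_mul_left hbpos
    have h3 : Nat.card (MulAction.orbit P.toSubgroup i) *
        Nat.card (MulAction.stabilizer P.toSubgroup i) * P.toSubgroup.index =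
        2 ^ k * (Nat.card (MulAction.stabilizer P.toSubgroup i) * t) := by
      rw [← hPst, hidx, hSst, ht]
    calc Nat.card (MulAction.stabilizer P.toSubgroup i) * (2 ^ k * t)
        = 2 ^ k * (Nat.card (MulAction.stabilizer P.toSubgroup i) * t) := by ring
      _ = Nat.card (MulAction.orbit P.toSubgroup i) *
          Nat.card (MulAction.stabilizer P.toSubgroup i) * P.toSubgroup.index := h3.symm
      _ = Nat.card (MulAction.stabilizer P.toSubgroup i) *
          (Nat.card (MulAction.orbit P.toSubgroup i) * P.toSubgroup.index) := by ring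
  have h4 : 2 ^ k ∣ Nat.card (MulAction.orbit P.toSubgroup i) :=
    hcop.dvd_of_dvd_mul_right ⟨t, h2.symm⟩
  haveI : Nonempty (MulAction.orbit P.toSubgroup i) := ⟨⟨i, MulAction.mem_orbit_self i⟩⟩
  have h5 : 2 ^ k ≤ Nat.card (MulAction.orbit P.toSubgroup i) := Nat.le_of_dvd Nat.card_pos h4
  have h6 : MulAction.orbit P.toSubgroup i = Set.univ := by
    apply Set.eq_of_subset_of_ncard_le (Set.subset_univ _)
    rw [Set.ncard_univ, hι, ← Nat.card_coe_set_eq]
    exact h5
  have h7 : j ∈ MulAction.orbit P.toSubgroup i := by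
    rw [h6]
    trivial
  obtain ⟨⟨s, hs⟩, hsj⟩ := h7
  exact ⟨s, hs, hsj⟩

end Pool.Agent.Helper99.PG
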